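import Pool.Agent.Y492.AL.Stm
import Pool.Agent.H973R3.NC.A4L
import Pool.Agent.H973R3.NC.CT

/-!
# Project AL, task GL: the limit of the local connection probabilities
-/

set_option autoImplicit false

namespace Pool.Agent.Y748.AL

open H974 H12S H973N Finset Filter Topology
open Pool.Agent.Y492.AL

/-- A path from a vertex of a rectangle which does not visit the boundary stays inside. -/
theorem exit_or {G : Set Edg} {a b c d : ℤ} {u v : Vtx} (hu : inR a b c d u) (h : Reach G u v) :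
    (∃ w ∈ bdR a b c d, Reach (G ∩ ↑(RE a b c d)) u w) ∨ Reach (G ∩ ↑(RE a b c d)) u v := by
  have key : ∀ w, Reach G u w → (∃ w ∈ bdR a b c d, Reach (G ∩ ↑(RE a b c d)) u w) ∨
      ((a < w.1 ∧ w.1 < b) ∧ (c < w.2 ∧ w.2 < d) ∧ Reach (G ∩ ↑(RE a b c d)) u w) := by
    intro w hw
    by_cases hout : w.1 ≤ a ∨ b ≤ w.1 ∨ w.2 ≤ c ∨ d ≤ w.2
    · obtain ⟨z, h1, h2, h3⟩ := first_exit hu hw hout
      exact Or.inl ⟨z, ⟨h1, h2⟩, h3⟩
    · push Not at hout
      induction hw with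
      | refl => exact Or.inr ⟨⟨hout.1, hout.2.1⟩, ⟨hout.2.2.1, hout.2.2.2⟩, Reach.refl _ _⟩
      | @tail w w' hw hs ih =>
        by_cases hout' : w.1 ≤ a ∨ b ≤ w.1 ∨ w.2 ≤ c ∨ d ≤ w.2
        · obtain ⟨z, h1, h2, h3⟩ := first_exit hu hw hout'
          exact Or.inl ⟨z, ⟨h1, h2⟩, h3⟩
        · push Not at hout'
          rcases ih hout' with ih | ⟨ih1, ih2, ih3⟩
          · exact Or.inl ih
          · obtain ⟨⟨x0, y0, bo⟩, heG, hcase⟩ := hs
            have hmem : ((x0, y0, bo) : Edg) ∈ RE a b c d := by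
              cases bo
              · simp only [src_mk, tgt_false] at hcase
                rw [mem_RE_false]
                rcases hcase with ⟨h3, h4⟩ | ⟨h3, h4⟩
                · rw [← h3] at ih1 ih2; simp only at ih1 ih2; omega
                · rw [← h4] at ih1 ih2; simp only at ih1 ih2; omega
              · simp only [src_mk, tgt_true] at hcase
                rw [mem_RE_true]
                rcases hcase with ⟨h3, h4⟩ | ⟨h3, h4⟩
                · rw [← h3] at ih1 ih2; simp only at ih1 ih2; omega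
                · rw [← h4] at ih1 ih2; simp only at ih1 ih2; omega
            have hadj : Adj (G ∩ ↑(RE a b c d)) w w' := ⟨_, ⟨heG, hmem⟩, hcase⟩
            exact Or.inr ⟨⟨hout.1, hout.2.1⟩, ⟨hout.2.2.1, hout.2.2.2⟩, ih3.trans hadj.reach⟩
  rcases key v h with h1 | ⟨-, -, h1⟩
  · exact Or.inl h1
  · exact Or.inr h1

theorem cn_mono {e : Edg} {F G : Finset Edg} (hFG : F ⊆ G) (h : cn e F) : cn e G := by
  unfold cn at h ⊢
  refine h.mono ?_
  exact_mod_cast Finset.erase_subset_erase e hFG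

theorem cn_or {e : Edg} {k : ℕ} (hk : 1 ≤ k) {S : Finset Edg} (hS : blk (bp e) k ⊆ S)
    {F : Finset Edg} (h : cn e F) : cn e (F ∩ S) ∨ L4 k e (↑F : Set Edg) := by
  by_cases hc : cn e (F ∩ S)
  · exact Or.inl hc
  right
  obtain ⟨x, y, b⟩ := e
  unfold cn at h hc
  have e1 : ((↑F : Set Edg) ∩ ↑(RE (x - k) (x + k) (y - k) (y + k))) \ {(x, y, b)} =
      (↑(F.erase (x, y, b)) : Set Edg) ∩ ↑(RE (x - k) (x + k) (y - k) (y + k)) := by
    ext g
    simp only [Set.mem_sdiff, Set.mem_inter_iff, Finset.mem_coe, Set.mem_singleton_iff,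
      Finset.mem_erase]
    tauto
  have hsub : ((↑F : Set Edg) ∩ ↑(RE (x - k) (x + k) (y - k) (y + k))) \ {(x, y, b)} ⊆
      (↑((F ∩ S).erase (x, y, b)) : Set Edg) := by
    intro g
    simp only [Set.mem_sdiff, Set.mem_inter_iff, Finset.mem_coe, Set.mem_singleton_iff,
      Finset.mem_erase, Finset.mem_inter]
    rintro ⟨⟨h1, h2⟩, h3⟩
    exact ⟨h3, h1, hS h2⟩
  have hno : ¬ Reach (((↑F : Set Edg) ∩ ↑(RE (x - k) (x + k) (y - k) (y + k))) \ {(x, y, b)})
      (src (x, y, b)) (tgt (x, y, b)) := fun h3 => hc (h3.mono hsub)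
  have hin : inR (x - k) (x + k) (y - k) (y + k) (src (x, y, b)) := by
    unfold inR
    simp only [src_mk]
    omega
  have hin' : inR (x - k) (x + k) (y - k) (y + k) (tgt (x, y, b)) := by
    unfold inR
    cases b
    · simp only [tgt_false]
      omega
    · simp only [tgt_true]
      omega
  unfold L4 A4
  simp only
  rw [e1] at hno ⊢
  refine ⟨?_, ?_, hno⟩
  · rcases exit_or hin h with h1 | h1
    · exact h1
    · exact absurd h1 hno
  · rcases exit_or hin' h.symm with h1 | h1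
    · exact h1
    · exact absurd h1.symm hno

/-- Comparison of the connection probabilities in two sets of edges. -/
theorem cmp {q : ℝ} (h0 : 0 ≤ q) (h1 : q ≤ 1) {e : Edg} {k : ℕ} (hk : 1 ≤ k) {S T : Finset Edg}
    (hS : blk (bp e) k ⊆ S) (hST : S ⊆ T) :
    PQ q S (cn e) ≤ PQ q T (cn e) ∧ PQ q T (cn e) ≤ PQ q S (cn e) + a4 q k := by
  have hok : Ok (fun _ : Edg => q) := fun _ => ⟨h0, h1⟩
  refine ⟨Pr_mono_set hok hST ?_, ?_⟩
  · intro A B hAB _ hA
    exact cn_mono hAB hA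
  · have e1 : PQ q T (fun F => cn e (F ∩ S)) = PQ q S (cn e) := by
      have h3 : PQ q T (fun F => cn e (F ∩ S)) = PQ q S (fun F => cn e (F ∩ S)) := by
        apply Pr_local hST
        intro F _
        rw [Finset.inter_assoc, Finset.inter_self]
      rw [h3]
      apply Pr_congr
      intro F hF
      rw [Finset.inter_eq_left.mpr hF]
    calc PQ q T (cn e) ≤ PQ q T (fun F => cn e (F ∩ S) ∨ L4 k e (↑F : Set Edg)) :=
          Pr_mono hok (fun F _ h => cn_or hk hS h)
      _ ≤ PQ q T (fun F => cn e (F ∩ S)) + PQ q T (fun F => L4 k e (↑F : Set Edg)) :=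
          Pr_or_le hok _ _ _
      _ ≤ PQ q S (cn e) + a4 q k := by
          rw [e1]
          have := pr_L4 h0 h1 (hS.trans hST) (ρ := k) (e := e)
          linarith

/-- Translation invariance. -/
theorem pr_blk (q : ℝ) (e : Edg) (n : ℕ) :
    PQ q (blk (bp e) n) (cn e) = PQ q (boxE n) (cn (e0 e.2.2)) := by
  obtain ⟨x, y, b⟩ := e
  have e2 : blk (bp (x, y, b)) n = (trl x y).mp (boxE n) := by
    unfold blk boxE bp
    rw [trl_RE]
    congr 1 <;> simp only <;> ring
  rw [e2]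
  unfold PQ
  rw [LSym.pr]
  refine Pr_congr fun F _ => ?_
  unfold cn
  have e1 : (↑(((trl x y).mp F).erase (x, y, b)) : Set Edg) =
      (trl x y).φ '' (↑(F.erase (e0 b)) : Set Edg) := by
    ext ⟨x1, y1, b1⟩
    simp only [Finset.coe_erase, Set.mem_sdiff, Finset.mem_coe, Set.mem_singleton_iff,
      LSym.mem_mp, trl_φs, Set.mem_image]
    constructor
    · rintro ⟨h1, h3⟩
      refine ⟨(x1 - x, y1 - y, b1), ⟨h1, ?_⟩, ?_⟩
      · intro h4
        apply h3
        unfold e0 at h4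
        simp only [Prod.mk.injEq] at h4 ⊢
        exact ⟨by omega, by omega, h4.2.2⟩
      · rw [trl_φ]
        simp
    · rintro ⟨⟨x2, y2, b2⟩, ⟨h1, h3⟩, h4⟩
      rw [trl_φ] at h4
      simp only [Prod.mk.injEq] at h4
      obtain ⟨h5, h6, rfl⟩ := h4
      subst h5
      subst h6
      refine ⟨?_, ?_⟩
      · simpa using h1
      · intro h4
        apply h3
        unfold e0
        simp only [Prod.mk.injEq] at h4 ⊢
        exact ⟨by omega, by omega, h4.2.2⟩
  have hsrc : src (x, y, b) = (trl x y).ψ (src (e0 b)) := by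
    unfold e0
    simp
  have htgt : tgt (x, y, b) = (trl x y).ψ (tgt (e0 b)) := by
    unfold e0
    cases b <;> simp [add_comm]
  simp only [e1, hsrc, htgt]
  exact (trl x y).reach_iff

theorem box_mono {m n : ℕ} (h : m ≤ n) : boxE m ⊆ boxE n := by
  unfold boxE
  apply RE_subset <;> omega

theorem bp_e0 (b : Bool) (n : ℕ) : blk (bp (e0 b)) n = boxE n := by
  unfold blk boxE bp e0
  congr 1 <;> simp

theorem gl_lim : S_GL := by
  intro C hC ha4
  -- monotone and bounded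
  have hmono : ∀ b q, 0 ≤ q → q ≤ 1 → ∀ m n : ℕ, m ≤ n →
      PQ q (boxE m) (cn (e0 b)) ≤ PQ q (boxE n) (cn (e0 b)) := by
    intro b q h0 h1 m n hmn
    refine Pr_mono_set (fun _ => ⟨h0, h1⟩) (box_mono hmn) ?_
    intro A B hAB _ hA
    exact cn_mono hAB hA
  have hle1 : ∀ b q, 0 ≤ q → q ≤ 1 → ∀ n : ℕ, PQ q (boxE n) (cn (e0 b)) ≤ 1 :=
    fun b q h0 h1 n => Pr_le_one (fun _ => ⟨h0, h1⟩) _ _
  have hge0 : ∀ b q, 0 ≤ q → q ≤ 1 → ∀ n : ℕ, 0 ≤ PQ q (boxE n) (cn (e0 b)) :=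
    fun b q h0 h1 n => Pr_nonneg (fun _ => ⟨h0, h1⟩) _ _
  have hbdd : ∀ b q, 0 ≤ q → q ≤ 1 →
      BddAbove (Set.range (fun n : ℕ => PQ q (boxE n) (cn (e0 b)))) := by
    intro b q h0 h1
    refine ⟨1, ?_⟩
    rintro _ ⟨n, rfl⟩
    exact hle1 b q h0 h1 n
  have hgl : ∀ b q, 0 ≤ q → q ≤ 1 → ∀ k : ℕ, 1 ≤ k →
      PQ q (boxE k) (cn (e0 b)) ≤ gl b q ∧ gl b q ≤ PQ q (boxE k) (cn (e0 b)) + a4 q k := by
    intro b q h0 h1 k hk
    have hok : Ok (fun _ : Edg => q) := fun _ => ⟨h0, h1⟩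
    refine ⟨le_ciSup (hbdd b q h0 h1) k, ?_⟩
    apply ciSup_le
    intro n
    rcases le_total n k with hnk | hnk
    · have h3 := hmono b q h0 h1 n k hnk
      have h4 : 0 ≤ a4 q k := by
        unfold a4
        exact add_nonneg (Pr_nonneg hok _ _) (Pr_nonneg hok _ _)
      linarith
    · have h3 := cmp h0 h1 (e := e0 b) hk (S := boxE k) (T := boxE n)
        (by rw [bp_e0]) (box_mono hnk)
      exact h3.2
  have hfin : ∀ q : ℝ, 0 ≤ q → q ≤ 1 → ∀ (e : Edg) (k : ℕ) (S : Finset Edg), 1 ≤ k →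
      blk (bp e) k ⊆ S → |PQ q S (cn e) - gl e.2.2 q| ≤ C * (k:ℝ) ^ (-(5/4 : ℝ)) := by
    intro q h0 h1 e k S hk hS
    have h2 := cmp h0 h1 (e := e) hk (S := blk (bp e) k) (T := S) (Finset.Subset.refl _) hS
    rw [pr_blk] at h2
    have h3 := hgl e.2.2 q h0 h1 k hk
    have h4 := ha4 q h0 h1 k hk
    rw [abs_le]
    constructor <;> linarith [h2.1, h2.2, h3.1, h3.2]
  refine ⟨?_, ?_, hfin⟩
  · intro b
    have hunif : TendstoUniformlyOn (fun (n : ℕ) (q : ℝ) => PQ q (boxE n) (cn (e0 b))) (gl b)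
        atTop (Set.Icc 0 1) := by
      rw [Metric.tendstoUniformlyOn_iff]
      intro ε hε
      have hlim : Tendsto (fun n : ℕ => C * (n:ℝ) ^ (-(5/4 : ℝ))) atTop (𝓝 (C * 0)) :=
        ((tendsto_rpow_neg_atTop (by norm_num : (0:ℝ) < 5/4)).comp
          tendsto_natCast_atTop_atTop).const_mul C
      rw [mul_zero] at hlim
      have h5 := hlim.eventually (gt_mem_nhds hε)
      filter_upwards [h5, eventually_ge_atTop 1] with n hn hn1 q hq
      have h6 := hfin q hq.1 hq.2 (e0 b) n (boxE n) hn1 (by rw [bp_e0])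
      rw [dist_comm, Real.dist_eq]
      exact lt_of_le_of_lt h6 hn
    refine hunif.continuousOn (Filter.Eventually.frequently (Filter.Eventually.of_forall ?_))
    intro n
    exact (cont_Pr (boxE n) (cn (e0 b))).continuousOn
  · intro b q h0 h1
    have h3 := hgl b q h0 h1 1 le_rfl
    refine ⟨(hge0 b q h0 h1 1).trans h3.1, ?_⟩
    apply ciSup_le
    intro n
    exact hle1 b q h0 h1 n

end Pool.Agent.Y748.AL
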